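import Pool.Agent.Q43.KM.Noeth

/-! # The embedding dimension of wild Kummer singularities

Question Q1 of MP_cd71ec_ag, at the level of formal groups.

Let `k` be a field of characteristic two and let `G` be a commutative formal group of dimension `g`
over `k`, given by its group law `F(x, y)` (a vector of `g` power series in `2 g` variables) and its
inverse series `inv(x)`, whose multiplication by two `[2](x) = F(x, x)` is finite, i.e. the quotient
of `k[[x_1, ..., x_g]]` by the ideal generated by the `g` series `[2](x)` is finite dimensional
over `k`.  Then the ring of invariants `S = k[[x_1, ..., x_g]]^ι` of the involution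
`ι : f(x) ↦ f(inv x)` is a Noetherian local ring whose maximal ideal `m` satisfies
`dim m / m^2 = 2 ^ g - 1`, and `2 ^ g - 1` is the minimal number of generators of `m`.

This is the local statement behind the question: for an abelian variety `A` of dimension `g` over an
algebraically closed field `k` of characteristic two multiplication by two is an isogeny, so its
formal group `G` satisfies the finiteness hypothesis, and the completed local ring of `A / ι` at the
image of a `k`-point `a` with `2 a = 0` is the ring of invariants `S` (translate by `a`, which
commutes with the sign involution, and use that the formation of invariants under a finite group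
commutes with completion).

## The proof

Put `a_i = x_i + inv_i(x)` and `u_i = x_i inv_i(x)`.  The group law is symmetric and the
characteristic is two, so `[2](x)_i = V_i(x_1^2, ..., x_g^2)`; and `x = F(inv x, [2] x)` gives
`a_i ≡ [2](x)_i` modulo `m J`, where `J` is the ideal generated by the `[2](x)_i`.  The ring
`R = k[[x]]` is free over `P = k[[u]]` with basis the squarefree monomials, and with `w_i = V_i(u)`
the ideal `J` is generated by the `a_i` and also by the `w_i`.  The `a_i` form a regular
sequence.  On `R` the trace `T = 1 + ι` satisfies `T ^ 2 = 0`, and multiplication by `a_i` commutes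
with `T` and is null-homotopic; counting dimensions along the regular sequence shows that the
homology of `(R, T)` has dimension at most `dim P / (w)`, and therefore `S = P + T(R)` and
`P ∩ T(R) = (w) P`.  Hence `S` has maximal ideal `m_P + T(R)` with square `m_P ^ 2 + m_P T(R)`, and
`m / m ^ 2` has as a basis the classes of the `u_i` and of the traces of the squarefree monomials of
degree at least two. -/

universe u

open Q43.KM MvPowerSeries IsLocalRing

namespace Pool.Agent.Results.MP_cd71ec_ag.FormalKummerEmbeddingDimension

/-- `FormalGroupLaw k g` is the type of commutative formal group laws `F(x, y)` in `g` variables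
over `k` together with the inverse series `inv(x)`; `G.two` is the vector of the series
`[2](x) = F(x, x)`; `G.sgn` is the endomorphism `f(x) ↦ f(inv x)` of `k[[x_1, ..., x_g]]`, and
`Inv G.sgn` is its ring of invariants. -/
theorem result (k : Type u) [Field k] [CharP k 2] (g : ℕ) (G : FormalGroupLaw k g)
    (hfin : Module.Finite k (MvPowerSeries (Fin g) k ⧸ Ideal.span (Set.range G.two))) :
    IsNoetherianRing (Inv G.sgn) ∧
    ∃ _ : IsLocalRing (Inv G.sgn),
      Module.finrank (ResidueField (Inv G.sgn)) (CotangentSpace (Inv G.sgn)) = 2 ^ g - 1 ∧
      (maximalIdeal (Inv G.sgn)).spanFinrank = 2 ^ g - 1 := by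
  have hloc : IsLocalRing (Inv G.sgn) := isLocalRing_Inv G.sgn
  have hN : IsNoetherianRing (Inv G.sgn) := (G.datum hfin).isNoetherian
  refine ⟨hN, hloc, G.finrank_cotangent hfin, ?_⟩
  rw [spanFinrank_maximalIdeal_eq_finrank_cotangentSpace]
  exact G.finrank_cotangent hfin

end Pool.Agent.Results.MP_cd71ec_ag.FormalKummerEmbeddingDimension
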